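import Pool.Agent.Lib.MP_72e2e6_nt.Sm.NG.Spec

/-!
# MP_72e2e6_nt, `Sm/NG`, module `Epsu`: the size of the error term
-/

set_option autoImplicit false

namespace Pool.Agent.MP72S.LvU

open Finset Polynomial MP72e2e6 Pool.Agent.MP72S.Lv

theorem tEpsu : S_Epsu := by
  intro G N P F _ _ D pi A m n h X hF hA
  obtain ⟨t, ht⟩ : ∃ t, t = Fintype.card (TT D) := ⟨_, rfl⟩
  have hrat := hF.rat
  have hbig := hF.big
  rw [← ht] at hrat hbig
  have hm : 1 ≤ m := by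
    refine le_trans ?_ hrat
    exact Nat.mul_pos hA (Nat.succ_pos t)
  have hX : 4 ≤ X := by
    have h1 : n ⟨0, hm⟩ ≤ ∑ i, n i := Finset.single_le_sum (f := n) (fun i _ => Nat.zero_le _)
      (Finset.mem_univ _)
    have h2 := hF.ge ⟨0, hm⟩
    have h3 := hF.four
    have h4 := hF.tot
    omega
  refine ⟨?_, ?_⟩
  · refine lt_of_lt_of_le ?_ hbig
    have h1 : 1 ≤ A ^ (t + m + 1) := Nat.one_le_pow _ _ hA
    have h2 : X ^ 2 ≤ X ^ 2 * A ^ (t + m + 1) := Nat.le_mul_of_pos_right _ h1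
    have h3 : (X ^ 2) ^ 2 ≤ (X ^ 2 * A ^ (t + m + 1)) ^ 2 := Nat.pow_le_pow_left h2 2
    refine lt_of_lt_of_le ?_ h3
    have h4 : 20 * X < X ^ 3 * X := by
      refine Nat.mul_lt_mul_of_pos_right ?_ (by omega)
      have : 4 ^ 3 ≤ X ^ 3 := Nat.pow_le_pow_left hX 3
      omega
    calc 20 * X < X ^ 3 * X := h4
      _ = (X ^ 2) ^ 2 := by ring
  · intro N' ε hN1 hNA hε
    rw [← ht]
    have hA0 : (0 : ℝ) < A := by exact_mod_cast hA
    have hN0 : (0 : ℝ) < N' := by exact_mod_cast hN1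
    have hNA' : (N' : ℝ) ≤ A := by exact_mod_cast hNA
    have hK : (0 : ℝ) < (A : ℝ) ^ (t + m + 1) := by positivity
    refine ⟨36 / (A : ℝ) ^ (t + m + 1), by positivity, ?_, ?_⟩
    · have h1 : (X : ℝ) ^ 2 * (A : ℝ) ^ (t + m + 1) ≤ Real.sqrt ((Nat.card F : ℝ) ^ h) := by
        apply Real.le_sqrt_of_sq_le
        exact_mod_cast hbig
      have h2 : 36 / (A : ℝ) ^ (t + m + 1) * ((X : ℝ) ^ 2 * (A : ℝ) ^ (t + m + 1)) =
          36 * (X : ℝ) ^ 2 := by
        field_simp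
      rw [← h2]
      exact mul_le_mul_of_nonneg_left h1 (by positivity)
    · have e1 : t + 1 + m = (t + m) + 1 := by ring
      have e2 : (N' : ℝ) ^ (t + m) ≤ (A : ℝ) ^ (t + m) := pow_le_pow_left₀ hN0.le hNA' _
      rw [e1, div_mul_eq_mul_div, div_le_iff₀ hK, pow_succ, pow_succ]
      have hε0 : 0 ≤ ε * A := le_trans (by positivity) hε
      calc 36 * ((N' : ℝ) ^ (t + m) * N') = (36 * N') * (N' : ℝ) ^ (t + m) := by ring
        _ ≤ (ε * A) * (A : ℝ) ^ (t + m) :=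
          mul_le_mul hε e2 (by positivity) hε0
        _ = ε * ((A : ℝ) ^ (t + m) * A) := by ring

end Pool.Agent.MP72S.LvU
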