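import Pool.Agent.Lib.MP_72e2e6_nt.Sm.NG.Spec

/-!
# MP_72e2e6_nt, `Sm/NG`, module `Lg1U`: the average order of `Dk z 1`, uniform
-/

set_option autoImplicit false

namespace Pool.Agent.MP72S.LvU

open Finset Polynomial MP72e2e6 Pool.Agent.MP72S.Lv

private theorem lg1uTup {P : Type} {m : ℕ} (Irr : ℕ → Finset P) (n : Fin m → ℕ) :
    (tup fun i => Irr (n i)) = (↑(tupF Irr n) : Set (Fin m → P)) := by
  ext z
  simp [tup, tupF, Fintype.mem_piFinset]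

private theorem lg1uNum (q : ℝ) (N t m : ℕ) (f ε' : ℝ) (hN : 0 < N) (hq : 0 ≤ q)
    (hb : (N : ℝ) ^ (t + 2) * f ≤ 1 * (N : ℝ) ^ m) (he : ε' * (N : ℝ) ^ (t + 1 + m) ≤ 1) :
    (N : ℝ) * q + (N : ℝ) ^ (t + 2) * q * (f / (N : ℝ) ^ m) + ε' * (N : ℝ) ^ (t + 1 + m) ≤
      N * q + q + 1 := by
  have h4m : (0 : ℝ) < (N : ℝ) ^ m := by positivity
  have hb' : (N : ℝ) ^ (t + 2) * (f / (N : ℝ) ^ m) ≤ 1 := by
    rw [← mul_div_assoc, div_le_iff₀ h4m]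
    exact hb
  have e1 : (N : ℝ) ^ (t + 2) * q * (f / (N : ℝ) ^ m) =
      q * ((N : ℝ) ^ (t + 2) * (f / (N : ℝ) ^ m)) := by ring
  rw [e1]
  have e2 := mul_le_mul_of_nonneg_left hb' hq
  linarith

private theorem lg1uConst : ∃ K : ℕ, ∀ N : ℕ, N = 4 → (N : ℝ) * 2 ^ (N ^ 2) + 2 ^ (N ^ 2) + 1 ≤ K := by
  obtain ⟨K, hK⟩ := exists_nat_ge (((4 : ℕ) : ℝ) * 2 ^ ((4 : ℕ) ^ 2) + 2 ^ ((4 : ℕ) ^ 2) + 1)
  exact ⟨K, fun N h => by rw [h]; exact hK⟩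

theorem tLg1U (h1 : Lv.S_Mop) (h2 : Lv.S_Exp) (h3 : Lv.S_Lnk) (h4 : Lv.S_Tmz) (h5 : S_Momu)
    (h6 : S_Binu) (h7 : S_EqzE) (h8 : S_Epsu) : S_Lg1U := by
  obtain ⟨C₀, hC₀⟩ := h6 4 0 (by norm_num)
  obtain ⟨m₀, hm₀⟩ := hC₀ 1 one_pos
  obtain ⟨K, hK⟩ := lg1uConst
  refine ⟨K, max (2 * C₀) (m₀ + 144), ?_⟩
  intro G N P F _ _ _ _ _ _ D pi Irr hA ar hq m n h X hF hok
  obtain ⟨A, hAdef⟩ : ∃ A, A = max (2 * C₀) (m₀ + 144) := ⟨_, rfl⟩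
  rw [← hAdef] at hF
  have hA1 : 2 * C₀ ≤ A := hAdef ▸ le_max_left _ _
  have hA2 : m₀ + 144 ≤ A := hAdef ▸ le_max_right _ _
  have hc : Nat.card (VN N) = 4 := (h1 D hA).1
  obtain ⟨S, hS⟩ := (h2 D hA).2.2.1
  have : Finite (VN N) := Nat.finite_of_card_ne_zero (by rw [hc]; norm_num)
  have hok' := hok
  rw [lg1uTup] at hok ⊢
  rw [finsum_mem_coe_finset]
  have hP0 : 0 ≤ ∏ i, (#(Irr (n i)) : ℝ) := prod_nonneg fun i _ => Nat.cast_nonneg _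
  rcases (tupF Irr n).eq_empty_or_nonempty with he | ⟨z₀, hz₀⟩
  · rw [he, Finset.sum_empty]
    exact mul_nonneg (Nat.cast_nonneg _) hP0
  have hnz : ∀ z ∈ tupF Irr n, nz D z = fun i => (n i : ZMod 2) := by
    intro z hz
    have hz' : z ∈ tup fun i => Irr (n i) := by
      rw [lg1uTup]
      exact hz
    funext i
    obtain ⟨hS', hd⟩ := (ar.irr _ _).1 (hz'.1 i)
    have hne : z i ≠ D.inf := fun h => hS' (by rw [h]; exact hA.infS)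
    rw [nz, ar.deg _ hne, hd]
  have e : ∑ z ∈ tupF Irr n, (Nat.card (D.Dk z 1) : ℝ) = ∑ z ∈ tupF Irr n,
      (Nat.card {x : Unk (TT D) (VN N) m // S.Sol (fun i => (n i : ZMod 2)) (Az D z) (Bz D z) x} :
        ℝ) := by
    refine sum_congr rfl fun z hz => ?_
    rw [((h3 D hA S hS m z (hok z hz).1).2.2.2), hnz z hz]
  rw [e]
  have hTm : S.Tm (fun i => (n i : ZMod 2)) := by
    rw [← hnz z₀ hz₀]
    exact h4 D hA S hS m z₀ (hok z₀ hz₀).1 (hok z₀ hz₀).2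
  obtain ⟨h20, heps⟩ := h8 D pi A m n h X hF (by omega)
  obtain ⟨ε', he0, he1, he2⟩ := heps 4 1 (by norm_num) (by omega) (by
    have : (144 : ℝ) ≤ A := by exact_mod_cast (by omega : 144 ≤ A)
    push_cast
    linarith)
  have hE := h7 D pi Irr hA ar hq m n h X hF.four hF.ge hF.sm hF.tot h20 ε' he1
  refine (h5 (TT D) (VN N) (Fin m → P) m S (fun i => (n i : ZMod 2)) hTm (tupF Irr n) (Az D)
    (Bz D) (∏ i, (#(Irr (n i)) : ℝ)) ε' hP0 he0 hE 4 hc.symm).trans ?_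
  have hrat := hF.rat
  have hm1 : C₀ * (Fintype.card (TT D) + 2) ≤ m := by
    refine le_trans ?_ hrat
    calc C₀ * (Fintype.card (TT D) + 2) ≤ C₀ * (2 * (Fintype.card (TT D) + 1)) :=
          Nat.mul_le_mul_left _ (by omega)
      _ = 2 * C₀ * (Fintype.card (TT D) + 1) := by ring
      _ ≤ A * (Fintype.card (TT D) + 1) := Nat.mul_le_mul_right _ hA1
  have hm2 : m₀ ≤ m := by
    refine le_trans ?_ hrat
    calc m₀ ≤ A := by omega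
      _ = A * 1 := (mul_one A).symm
      _ ≤ A * (Fintype.card (TT D) + 1) := Nat.mul_le_mul_left _ (by omega)
  have hb := hm₀ m hm2 (Fintype.card (TT D) + 2) hm1
  have hfin := lg1uNum ((2 : ℝ) ^ ((4 : ℕ) ^ 2)) 4 (Fintype.card (TT D)) m (few 4 0 m) ε'
    (by norm_num) (by positivity) hb he2
  rw [mul_comm (K : ℝ)]
  exact mul_le_mul_of_nonneg_left (hfin.trans (hK 4 rfl)) hP0

end Pool.Agent.MP72S.LvU
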