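import Pool.Agent.Lib.MP_72e2e6_nt.Sm.NG.Spec

/-!
# MP_72e2e6_nt, `Sm/NG`, module `Lg2bU`: missing patterns are rare for a given order of `Dk z 1`
-/

set_option autoImplicit false

namespace Pool.Agent.MP72S.LvU

open Finset Polynomial MP72e2e6 Pool.Agent.MP72S.Lv

private theorem lgbuTup {P : Type} {m : ℕ} (Irr : ℕ → Finset P) (n : Fin m → ℕ) :
    (tup fun i => Irr (n i)) = (↑(tupF Irr n) : Set (Fin m → P)) := by
  ext z
  simp [tup, tupF, Fintype.mem_piFinset]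

private theorem lgbuNum (K q : ℝ) (t m : ℕ) (f ε ε' : ℝ) (hK : 0 < K) (hq : 0 < q)
    (hb : K ^ (t + 2) * f ≤ ε / (2 * q) * K ^ m) (he : ε' * K ^ (t + 1 + m) ≤ ε / 2) :
    K ^ (t + 1) * q * K * (f / K ^ m) + ε' * K ^ (t + 1 + m) ≤ ε := by
  have h4m : (0 : ℝ) < K ^ m := by positivity
  have hb' : K ^ (t + 2) * (f / K ^ m) ≤ ε / (2 * q) := by
    rw [← mul_div_assoc, div_le_iff₀ h4m]
    exact hb
  have e1 : K ^ (t + 1) * q * K * (f / K ^ m) = q * (K ^ (t + 2) * (f / K ^ m)) := by ring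
  rw [e1]
  have e2 := mul_le_mul_of_nonneg_left hb' hq.le
  have e3 : q * (ε / (2 * q)) = ε / 2 := by
    field_simp
  rw [e3] at e2
  linarith

theorem tLg2bU (h1 : Lv.S_Mop) (h2 : Lv.S_Exp) (h3 : Lv.S_Tmz) (h4 : Lv.S_Dnz) (h5 : Lv.S_Mbd)
    (h6 : Lv.S_Pbd) (h7 : S_Binu) (h8 : S_EqzE) (h9 : S_Epsu) : S_Lg2bU := by
  classical
  intro k L ε hε
  obtain ⟨K, hK⟩ : ∃ K : ℕ, K = 4 ^ k := ⟨_, rfl⟩
  have hK1 : 1 ≤ K := by
    rw [hK]
    exact Nat.one_le_pow _ _ (by norm_num)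
  have hKr : (0 : ℝ) < K := by exact_mod_cast hK1
  obtain ⟨C₀, hC₀⟩ := h7 K L hK1
  have hq0 : (0 : ℝ) < 2 ^ (K ^ 2) := pow_pos two_pos _
  obtain ⟨m₀, hm₀⟩ := hC₀ (ε / (2 * 2 ^ (K ^ 2))) (by positivity)
  obtain ⟨R, hR⟩ := exists_nat_ge (72 * (K : ℝ) / ε)
  refine ⟨max (2 * C₀) (max m₀ (max K R)), ?_⟩
  intro G N P F _ _ _ _ _ _ D pi Irr hA hI ar hq m n h X hF hok b
  obtain ⟨A, hAdef⟩ : ∃ A, A = max (2 * C₀) (max m₀ (max K R)) := ⟨_, rfl⟩
  rw [← hAdef] at hF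
  have hA1 : 2 * C₀ ≤ A := by omega
  have hA2 : m₀ ≤ A := by omega
  have hA3 : K ≤ A := by omega
  have hA4 : R ≤ A := by omega
  have hc : Nat.card (VN N) = 4 := (h1 D hA).1
  obtain ⟨S, hS⟩ := (h2 D hA).2.2.1
  have : Finite (VN N) := Nat.finite_of_card_ne_zero (by rw [hc]; norm_num)
  have hKc : K = Nat.card (VN N) ^ k := by rw [hc]; exact hK
  set t := Fintype.card (TT D) with ht
  set M : ℝ := ∏ i, (#(Irr (n i)) : ℝ) with hM
  have hM0 : 0 ≤ M := prod_nonneg fun i _ => Nat.cast_nonneg _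
  rcases Set.eq_empty_or_nonempty (tup fun i => Irr (n i)) with he | ⟨z₀, hz₀⟩
  · rw [he]
    have h0 : {z ∈ (∅ : Set (Fin m → P)) | Nat.card (D.Dk z 1) = 4 * 2 ^ k ∧
        ¬ D.Pat (D.Dk z 1) b L} = ∅ := Set.eq_empty_of_forall_notMem fun z hz => hz.1
    rw [h0, Set.ncard_empty, Nat.cast_zero]
    exact mul_nonneg hε.le hM0
  have hnz : ∀ z ∈ tup fun i => Irr (n i), nz D z = fun i => (n i : ZMod 2) := by
    intro z hz'
    funext i
    obtain ⟨hS', hd⟩ := (ar.irr _ _).1 (hz'.1 i)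
    have hne : z i ≠ D.inf := fun h => hS' (by rw [h]; exact hA.infS)
    rw [nz, ar.deg _ hne, hd]
  have hTm : S.Tm fun i => (n i : ZMod 2) := by
    rw [← hnz z₀ hz₀]
    exact h3 D hA S hS m z₀ (hok z₀ hz₀).1 (hok z₀ hz₀).2
  obtain ⟨h20, heps⟩ := h9 D pi A m n h X hF (by omega)
  obtain ⟨ε', he0, he1, he2⟩ := heps K (ε / 2) hK1 hA3 (by
    have e1 : 72 * (K : ℝ) ≤ R * ε := by rwa [div_le_iff₀ hε] at hR
    have e2 : (R : ℝ) ≤ A := by exact_mod_cast hA4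
    have e3 : (R : ℝ) * ε ≤ A * ε := mul_le_mul_of_nonneg_right e2 hε.le
    linarith)
  have hE := h8 D pi Irr hA ar hq m n h X hF.four hF.ge hF.sm hF.tot h20 ε' he1
  have hmb := h5 (TT D) (VN N) (Fin m → P) m S (fun i => (n i : ZMod 2)) hTm k
    (h4 D hA hI S hS k) (tupF Irr n) (Az D) (Bz D) M ε' hM0 he0 hE b L K hKc
  have hrat := hF.rat
  have hm1 : C₀ * (t + 2) ≤ m := by
    refine le_trans ?_ hrat
    calc C₀ * (t + 2) ≤ C₀ * (2 * (t + 1)) := Nat.mul_le_mul_left _ (by omega)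
      _ = 2 * C₀ * (t + 1) := by ring
      _ ≤ A * (t + 1) := Nat.mul_le_mul_right _ hA1
  have hm2 : m₀ ≤ m := by
    refine le_trans ?_ hrat
    calc m₀ ≤ A := hA2
      _ = A * 1 := (mul_one A).symm
      _ ≤ A * (t + 1) := Nat.mul_le_mul_left _ (by omega)
  have hb := hm₀ m hm2 (t + 2) hm1
  refine le_trans ?_ (hmb.trans ?_)
  · -- every `z` in the set has a bad solution
    set E : Set (Fin m → P) := {z ∈ tup fun i => Irr (n i) | Nat.card (D.Dk z 1) = 4 * 2 ^ k ∧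
      ¬ D.Pat (D.Dk z 1) b L} with hE
    have hsub : E = (↑((tupF Irr n).filter fun z => z ∈ E) : Set (Fin m → P)) := by
      ext z
      rw [Finset.mem_coe, Finset.mem_filter]
      constructor
      · intro h
        refine ⟨?_, h⟩
        have h' := h.1
        rw [lgbuTup] at h'
        exact h'
      · exact fun h => h.2
    have hcard : E.ncard = #((tupF Irr n).filter fun z => z ∈ E) := by
      conv_lhs => rw [hsub]
      exact Set.ncard_coe_finset _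
    rw [hcard, card_filter]
    push_cast
    refine sum_le_sum fun z hz => ?_
    split_ifs with hzE
    · have hz' := hzE.1
      obtain ⟨x, hx, hb⟩ := (h6 D hA S hS m z (hok z hz').1).2 k hzE.2.1 b L hzE.2.2
      rw [hnz z hz'] at hx
      have hne : Nonempty {x : Unk (TT D) (Fin k → VN N) m //
          (S.pow k).Sol (fun i => (n i : ZMod 2)) (Az D z) (Bz D z) x ∧ Bad k b L x} :=
        ⟨⟨x, hx, hb⟩⟩
      have : 0 < Nat.card {x : Unk (TT D) (Fin k → VN N) m //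
          (S.pow k).Sol (fun i => (n i : ZMod 2)) (Az D z) (Bz D z) x ∧ Bad k b L x} :=
        Nat.card_pos
      exact_mod_cast this
    · exact Nat.cast_nonneg _
  · rw [mul_comm]
    refine mul_le_mul_of_nonneg_right ?_ hM0
    rw [← ht]
    exact lgbuNum K (2 ^ (K ^ 2)) t m (few K L m) ε ε' hKr hq0 hb he2

end Pool.Agent.MP72S.LvU
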