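import Pool.Agent.Lib.MP_72e2e6_nt.Sm.NG.Spec
import Pool.Agent.Lib.MP_72e2e6_nt.Sm.G.Mom

/-!
# MP_72e2e6_nt, `Sm`, block NG: the average number of the solutions, uniform in the fixed places
-/

set_option autoImplicit false

namespace Pool.Agent.MP72S.LvU

open Finset MP72e2e6 Pool.Agent.MP72S.Lv Pool.Agent.MP72S.Lv.MomAux

/-- Every element of a maximal set is a value of `u`. -/
private def Full {W : Type} [AddCommGroup W] [Module (ZMod 2) W] {m : ℕ}
    (u : Fin m → W × Module.Dual (ZMod 2) W) : Prop :=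
  ∃ 𝓥 : Finset (W × Module.Dual (ZMod 2) W), #𝓥 = Nat.card W ∧ (∀ i, u i ∈ 𝓥) ∧
        ∀ w ∈ 𝓥, 0 < {i | u i = w}.ncard

/-- The pairs `(c v, δ v)`. -/
private abbrev PS {W : Type} [AddCommGroup W] [Module (ZMod 2) W] {m : ℕ}
    (τ : Module.End (ZMod 2) W) (u : Fin m → W × Module.Dual (ZMod 2) W) : Type :=
  {p : W × Module.Dual (ZMod 2) W //
    ∀ i, (u i).2 (τ (p.1 - (u i).1)) + p.2 ((u i).1 - p.1) = 0}

private theorem str_back {W : Type} [AddCommGroup W] [Module (ZMod 2) W] [Finite W]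
    (τ : Module.End (ZMod 2) W) (hτ : ∀ x, τ x = 0 → x = 0) (A : Submodule (ZMod 2) W)
    (hA : ∀ y ∈ A, τ y ∈ A) {y : W} (hy : τ y ∈ A) : y ∈ A := by
  have hinj : Function.Injective τ := by
    intro a b hab
    have h0 : τ (a - b) = 0 := by rw [map_sub, hab, sub_self]
    exact sub_eq_zero.1 (hτ _ h0)
  let g : A → A := fun a => ⟨τ a.1, hA a.1 a.2⟩
  have hg : Function.Injective g := by
    intro a b hab
    apply Subtype.ext
    exact hinj (congrArg Subtype.val hab)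
  have hs : Function.Surjective g := Finite.surjective_of_injective hg
  obtain ⟨a, ha⟩ := hs ⟨τ y, hy⟩
  have h1 : τ a.1 = τ y := congrArg Subtype.val ha
  have h2 : a.1 = y := hinj h1
  rw [← h2]
  exact a.2

private theorem card_mul_ann {W : Type} [AddCommGroup W] [Module (ZMod 2) W] [Finite W]
    (A : Submodule (ZMod 2) W) :
    Nat.card A * Nat.card (A.dualAnnihilator) = Nat.card W := by
  rw [Module.natCard_eq_pow_finrank (K := ZMod 2) (V := A),
    Module.natCard_eq_pow_finrank (K := ZMod 2) (V := A.dualAnnihilator),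
    Module.natCard_eq_pow_finrank (K := ZMod 2) (V := W), ← pow_add,
    Subspace.finrank_add_finrank_dualAnnihilator_eq]

private theorem card_PS (h1 : MP72e2e6.StmtPpTS) {W : Type} [AddCommGroup W] [Module (ZMod 2) W]
    [Finite W] {m : ℕ} (τ : Module.End (ZMod 2) W) (hτ : ∀ x, τ x = 0 → x = 0)
    (u : Fin m → W × Module.Dual (ZMod 2) W) (hR : ∀ i j, Rel (u i) (u j)) (hF : Full u) :
    Nat.card (PS τ u) ≤ Nat.card W := by
  classical
  have := fin_dual W
  obtain ⟨𝓥, hcard, hmem, hmult⟩ := hF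
  have hidx : ∀ w ∈ 𝓥, ∃ i, u i = w := by
    intro w hw
    have h2 := hmult w hw
    have h3 : {i | u i = w}.ncard ≠ 0 := by omega
    obtain ⟨i, hi⟩ := Set.nonempty_of_ncard_ne_zero h3
    exact ⟨i, hi⟩
  have hunl : ∀ w ∈ 𝓥, ∀ w' ∈ 𝓥, BW w w' + BW w' w = 0 := by
    intro w hw w' hw'
    obtain ⟨i, rfl⟩ := hidx w hw
    obtain ⟨j, rfl⟩ := hidx w' hw'
    have h2 := hR i j
    unfold MomAux.Rel at h2
    unfold BW
    rw [LinearMap.sub_apply] at h2
    have h3 : (u j).1 - (u i).1 = -((u i).1 - (u j).1) := by abel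
    rw [h3, map_neg]
    rw [← sub_eq_zero.1 h2]
    ring
  have hpos : 0 < #𝓥 := by
    rw [hcard]
    exact Nat.card_pos
  obtain ⟨u₀, hu₀⟩ := Finset.card_pos.1 hpos
  obtain ⟨L', hL, hQ, hE⟩ := (h1 2 W 𝓥 hunl).2 hcard u₀ hu₀
  set A : Submodule (ZMod 2) W := L'.map (LinearMap.fst (ZMod 2) W (Module.Dual (ZMod 2) W))
    with hAd
  have hmA : ∀ y, y ∈ A ↔ ∃ e, (y, e) ∈ L' := by
    intro y
    rw [hAd, Submodule.mem_map]
    constructor
    · rintro ⟨⟨a, e⟩, h, rfl⟩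
      exact ⟨e, h⟩
    · rintro ⟨e, h⟩
      exact ⟨(y, e), h, rfl⟩
  have hshift : ∀ i, ∀ z ∈ L', (u i + z) ∈ 𝓥 := by
    intro i z hz
    rw [hL]
    have h2 := (hL _).1 (hmem i)
    have h3 : u i + z - u₀ = (u i - u₀) + z := by abel
    rw [h3]
    exact L'.add_mem h2 hz
  have hstep : ∀ i, ∀ w e, (w, e) ∈ L' → ∃ i', (u i').1 = (u i).1 + w ∧ (u i').2 = (u i).2 + e := by
    intro i w e hwe
    obtain ⟨i', hi'⟩ := hidx _ (hshift i _ hwe)
    refine ⟨i', ?_, ?_⟩
    · rw [hi', Prod.fst_add]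
    · rw [hi', Prod.snd_add]
  obtain ⟨i₀, -⟩ := hidx u₀ hu₀
  -- (c)
  have hc : ∀ p : PS τ u, ∀ i, τ (p.1.1 - (u i).1) ∈ A := by
    intro p i
    by_contra hcon
    obtain ⟨e, he1, he2⟩ := Submodule.exists_le_ker_of_notMem hcon
    have h0e : ((0 : W), e) ∈ L' := hE e fun z hz => he2 ((hmA _).2 ⟨z.2, hz⟩)
    obtain ⟨i', hi1, hi2⟩ := hstep i 0 e h0e
    rw [add_zero] at hi1
    have hf1 := p.2 i
    have hf2 := p.2 i'
    rw [hi1, hi2, LinearMap.add_apply] at hf2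
    apply he1
    have h5 : (u i).2 (τ (p.1.1 - (u i).1)) + e (τ (p.1.1 - (u i).1)) + p.1.2 ((u i).1 - p.1.1)
        - ((u i).2 (τ (p.1.1 - (u i).1)) + p.1.2 ((u i).1 - p.1.1)) = 0 := by
      rw [hf1, hf2, sub_self]
    refine Eq.trans ?_ h5
    ring
  have hd : ∀ p : PS τ u, ∀ y ∈ A, τ y ∈ A := by
    intro p y hy
    obtain ⟨e, he⟩ := (hmA y).1 hy
    obtain ⟨i', hi', -⟩ := hstep i₀ y e he
    have h5 : y = (p.1.1 - (u i₀).1) - (p.1.1 - (u i').1) := by
      rw [hi']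
      abel
    rw [h5, map_sub]
    exact A.sub_mem (hc p i₀) (hc p i')
  have he : ∀ p : PS τ u, ∀ i, p.1.1 - (u i).1 ∈ A := by
    intro p i
    exact str_back τ hτ A (hd p) (hc p i)
  -- the functional is determined on `A`
  have hdet : ∀ p p' : PS τ u, p.1.1 = p'.1.1 → p.1.2 - p'.1.2 ∈ A.dualAnnihilator := by
    intro p p' hpp
    rw [Submodule.mem_dualAnnihilator]
    intro a ha
    have h6 : a + (p.1.1 - (u i₀).1) ∈ A := A.add_mem ha (he p i₀)
    obtain ⟨e, he'⟩ := (hmA _).1 h6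
    obtain ⟨i, hi, -⟩ := hstep i₀ _ e he'
    have h7 : a = (u i).1 - p.1.1 := by
      rw [hi]
      abel
    have h8 := p.2 i
    have h9 := p'.2 i
    rw [← hpp] at h9
    rw [LinearMap.sub_apply, h7]
    have h10 : (u i).2 (τ (p.1.1 - (u i).1)) + p.1.2 ((u i).1 - p.1.1) -
        ((u i).2 (τ (p.1.1 - (u i).1)) + p'.1.2 ((u i).1 - p.1.1)) = 0 := by
      rw [h8, h9, sub_self]
    refine Eq.trans ?_ h10
    ring
  let rf : W → Module.Dual (ZMod 2) W := fun c =>
    if h : ∃ p : PS τ u, p.1.1 = c then h.choose.1.2 else 0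
  have hrf : ∀ p : PS τ u, p.1.2 - rf p.1.1 ∈ A.dualAnnihilator := by
    intro p
    have hex : ∃ p' : PS τ u, p'.1.1 = p.1.1 := ⟨p, rfl⟩
    have h11 : rf p.1.1 = hex.choose.1.2 := dif_pos hex
    rw [h11]
    exact hdet p hex.choose hex.choose_spec.symm
  have : Finite (PS τ u) := inferInstanceAs (Finite {p : W × Module.Dual (ZMod 2) W //
    ∀ i, (u i).2 (τ (p.1 - (u i).1)) + p.2 ((u i).1 - p.1) = 0})
  calc Nat.card (PS τ u) ≤ Nat.card (A × A.dualAnnihilator) := by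
        refine Nat.card_le_card_of_injective
          (fun p : PS τ u => ((⟨p.1.1 - (u i₀).1, he p i₀⟩ : A),
            (⟨p.1.2 - rf p.1.1, hrf p⟩ : A.dualAnnihilator))) ?_
        intro p p' hpp
        simp only [Prod.mk.injEq, Subtype.mk.injEq] at hpp
        obtain ⟨h12, h13⟩ := hpp
        have h14 : p.1.1 = p'.1.1 := sub_left_injective h12
        rw [h14] at h13
        have h15 : p.1.2 = p'.1.2 := sub_left_injective h13
        exact Subtype.ext (Prod.ext h14 h15)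
    _ = Nat.card A * Nat.card (A.dualAnnihilator) := Nat.card_prod _ _
    _ = Nat.card W := card_mul_ann A

private theorem card_full (h1 : S_Few) (h3 : MP72e2e6.StmtPpTS) {T W : Type} [Fintype T]
    [AddCommGroup W] [Module (ZMod 2) W] [Finite W] {m : ℕ} (S : Opr T W)
    (hσ : ∀ v x, S.σ v x = 0 → x = 0) :
    Nat.card {q : Unk T W m × ((Fin m → Module.Dual (ZMod 2) W) ×
      (T → Module.Dual (ZMod 2) W)) // S.Cmp q.1.1 q.1.2.2 q.2.1 q.2.2 ∧
        Full (fun i => (q.1.2.2 i, q.2.1 i))} ≤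
    Nat.card W * ((2 ^ (Nat.card W ^ 2) * Nat.card W ^ m) * Nat.card W ^ Fintype.card T) := by
  classical
  have := fin_dual W
  set U : Type := {u : Fin m → W × Module.Dual (ZMod 2) W // (∀ i j, Rel (u i) (u j)) ∧ Full u}
    with hU
  have : Fintype U := Fintype.ofFinite _
  have hfin : ∀ (u : Fin m → W × Module.Dual (ZMod 2) W) (τ : Module.End (ZMod 2) W),
      Finite (PS τ u) := fun u τ => inferInstanceAs (Finite {p : W × Module.Dual (ZMod 2) W //
    ∀ i, (u i).2 (τ (p.1 - (u i).1)) + p.2 ((u i).1 - p.1) = 0})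
  have hc1 : Nat.card (W × Σ u : U, (∀ v : T, PS (S.σ v) u.1)) ≤
      Nat.card W * ((2 ^ (Nat.card W ^ 2) * Nat.card W ^ m) * Nat.card W ^ Fintype.card T) := by
    rw [Nat.card_prod, Nat.card_sigma]
    refine Nat.mul_le_mul_left _ ?_
    have h5 : ∀ u : U, Nat.card (∀ v : T, PS (S.σ v) u.1) ≤ Nat.card W ^ Fintype.card T := by
      intro u
      rw [Nat.card_pi]
      calc ∏ v : T, Nat.card (PS (S.σ v) u.1) ≤ ∏ _v : T, Nat.card W :=
            Finset.prod_le_prod' fun v _ => card_PS h3 (S.σ v) (hσ v) u.1 u.2.1 u.2.2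
        _ = Nat.card W ^ Fintype.card T := by
            rw [Finset.prod_const, Finset.card_univ]
    calc ∑ u : U, Nat.card (∀ v : T, PS (S.σ v) u.1) ≤ ∑ _u : U, Nat.card W ^ Fintype.card T :=
          Finset.sum_le_sum fun u _ => h5 u
      _ = Nat.card U * Nat.card W ^ Fintype.card T := by
          rw [Finset.sum_const, Finset.card_univ, smul_eq_mul, ← Nat.card_eq_fintype_card]
      _ ≤ _ := by
          refine Nat.mul_le_mul_right _ ?_
          refine le_trans ?_ (few_hyp h3 h1 W m 0).1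
          exact Nat.card_le_card_of_injective
            (fun u : U => (⟨u.1, u.2.1⟩ :
              {u : Fin m → W × Module.Dual (ZMod 2) W // ∀ i j, Rel (u i) (u j)}))
            (fun x y h => Subtype.ext (Subtype.mk.inj h))
  refine le_trans ?_ hc1
  refine Nat.card_le_card_of_injective (fun q => (q.1.1.2.1,
    ⟨(⟨fun i => (q.1.1.2.2 i, q.1.2.1 i), fun i j => cmp_rel q.2.1 i j, q.2.2⟩ : U),
      fun v => ⟨(q.1.1.1 v, q.1.2.2 v), fun i => q.2.1.fx v i⟩⟩)) ?_
  rintro ⟨⟨⟨c, c₀, s⟩, lam, δ⟩, hq⟩ ⟨⟨⟨c', c₀', s'⟩, lam', δ'⟩, hq'⟩ h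
  simp only [Prod.mk.injEq, Sigma.mk.injEq] at h
  obtain ⟨h2, h5, h7⟩ := h
  have h5' := Subtype.mk.inj h5
  have h8 : s = s' := funext fun i => (Prod.mk.inj (congrFun h5' i)).1
  have h9 : lam = lam' := funext fun i => (Prod.mk.inj (congrFun h5' i)).2
  subst h2 h8 h9
  have h10 := eq_of_heq h7
  have h11 : c = c' := funext fun v => (Prod.mk.inj (Subtype.mk.inj (congrFun h10 v))).1
  have h12 : δ = δ' := funext fun v => (Prod.mk.inj (Subtype.mk.inj (congrFun h10 v))).2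
  subst h11 h12
  rfl

private theorem card_notfull (h1 : S_Few) (h3 : MP72e2e6.StmtPpTS) {T W : Type} [Fintype T]
    [AddCommGroup W] [Module (ZMod 2) W] [Finite W] {m : ℕ} (S : Opr T W) :
    Nat.card {q : Unk T W m × ((Fin m → Module.Dual (ZMod 2) W) ×
      (T → Module.Dual (ZMod 2) W)) // S.Cmp q.1.1 q.1.2.2 q.2.1 q.2.2 ∧
        ¬ Full (fun i => (q.1.2.2 i, q.2.1 i))} ≤
    Nat.card W ^ (2 * Fintype.card T + 1) *
      (2 ^ (Nat.card W ^ 2) * Nat.card W * few (Nat.card W) 0 m) := by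
  have := fin_dual W
  have hc1 : Nat.card ((T → W) × W × (T → Module.Dual (ZMod 2) W) ×
      {u : Fin m → W × Module.Dual (ZMod 2) W // (∀ i j, Rel (u i) (u j)) ∧ ¬ Full u}) ≤
      Nat.card W ^ (2 * Fintype.card T + 1) *
      (2 ^ (Nat.card W ^ 2) * Nat.card W * few (Nat.card W) 0 m) := by
    rw [Nat.card_prod, Nat.card_prod, Nat.card_prod, Nat.card_fun, Nat.card_fun, card_dual,
      Nat.card_eq_fintype_card (α := T)]
    have h5 := (few_hyp h3 h1 W m 0).2
    calc _ = Nat.card W ^ (2 * Fintype.card T + 1) * Nat.card {u : Fin m → W ×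
          Module.Dual (ZMod 2) W // (∀ i j, Rel (u i) (u j)) ∧ ¬ Full u} := by ring
      _ ≤ _ := Nat.mul_le_mul_left _ h5
  refine le_trans ?_ hc1
  refine Nat.card_le_card_of_injective (fun q => (q.1.1.1, q.1.1.2.1, q.1.2.2,
    ⟨fun i => (q.1.1.2.2 i, q.1.2.1 i), fun i j => cmp_rel q.2.1 i j, q.2.2⟩)) ?_
  rintro ⟨⟨⟨c, c₀, s⟩, lam, δ⟩, hq⟩ ⟨⟨⟨c', c₀', s'⟩, lam', δ'⟩, hq'⟩ h
  simp only [Prod.mk.injEq, Subtype.mk.injEq] at h
  obtain ⟨h2, h3, h4, h5⟩ := h
  have h6 : s = s' := funext fun i => (Prod.mk.inj (congrFun h5 i)).1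
  have h7 : lam = lam' := funext fun i => (Prod.mk.inj (congrFun h5 i)).2
  subst h2 h3 h4 h6 h7
  rfl

private theorem card_split {α : Type} [Finite α] (P Q : α → Prop) :
    Nat.card {a // P a} ≤ Nat.card {a // P a ∧ Q a} + Nat.card {a // P a ∧ ¬ Q a} := by
  classical
  have : Fintype α := Fintype.ofFinite α
  rw [Nat.card_eq_fintype_card, Nat.card_eq_fintype_card, Nat.card_eq_fintype_card,
    Fintype.card_subtype, Fintype.card_subtype, Fintype.card_subtype]
  refine le_trans (Finset.card_le_card ?_) (Finset.card_union_le _ _)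
  intro a ha
  rw [Finset.mem_filter] at ha
  rw [Finset.mem_union, Finset.mem_filter, Finset.mem_filter]
  by_cases hq : Q a
  · exact Or.inl ⟨ha.1, ha.2, hq⟩
  · exact Or.inr ⟨ha.1, ha.2, hq⟩

theorem tMomu (h1 : Lv.S_Few) (h2 : Lv.S_Prb) (h3 : MP72e2e6.StmtPpTS) : S_Momu := by
  intro T W X _ _ _ _ m S n hTm Z A B M ε hM hε hE N hNW
  subst hNW
  have := fin_dual W
  have hN : (0 : ℝ) < (Nat.card W : ℝ) := by exact_mod_cast card_one_le W
  have h4 := sum_le h2 S n Z A B hM hε hE (fun _ => True)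
  have h5 : (∑ z ∈ Z, (Nat.card {x : Unk T W m // S.Sol n (A z) (B z) x} : ℝ)) ≤
      ∑ z ∈ Z, (Nat.card {x : Unk T W m // S.Eqs n (A z) (B z) x ∧ True} : ℝ) := by
    refine Finset.sum_le_sum fun z _ => ?_
    exact_mod_cast Nat.card_le_card_of_injective
      (fun x : {x : Unk T W m // S.Sol n (A z) (B z) x} =>
        (⟨x.1, x.2.2, trivial⟩ : {x : Unk T W m // S.Eqs n (A z) (B z) x ∧ True}))
      (fun x y h => Subtype.ext (Subtype.mk.inj h))
  refine (h5.trans h4).trans (mul_le_mul_of_nonneg_left (add_le_add_left ?_ _) hM)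
  have h6 : Nat.card {q : Unk T W m × ((Fin m → Module.Dual (ZMod 2) W) ×
          (T → Module.Dual (ZMod 2) W)) // True ∧ S.Cmp q.1.1 q.1.2.2 q.2.1 q.2.2} ≤
      Nat.card W * ((2 ^ (Nat.card W ^ 2) * Nat.card W ^ m) * Nat.card W ^ Fintype.card T) +
      Nat.card W ^ (2 * Fintype.card T + 1) *
      (2 ^ (Nat.card W ^ 2) * Nat.card W * few (Nat.card W) 0 m) := by
    simp only [true_and]
    refine (card_split _ (fun q : Unk T W m × ((Fin m → Module.Dual (ZMod 2) W) ×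
      (T → Module.Dual (ZMod 2) W)) => Full (fun i => (q.1.2.2 i, q.2.1 i)))).trans
      (add_le_add (card_full h1 h3 S hTm.inj) (card_notfull h1 h3 S))
  have hNe : (Nat.card W : ℝ) ≠ 0 := hN.ne'
  rw [div_le_iff₀ (pow_pos hN _)]
  calc _ ≤ ((Nat.card W * ((2 ^ (Nat.card W ^ 2) * Nat.card W ^ m) * Nat.card W ^ Fintype.card T) +
      Nat.card W ^ (2 * Fintype.card T + 1) *
      (2 ^ (Nat.card W ^ 2) * Nat.card W * few (Nat.card W) 0 m) : ℕ) : ℝ) := by exact_mod_cast h6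
    _ = _ := by
      push_cast
      rw [pow_add (Nat.card W : ℝ) (Fintype.card T) m]
      field_simp
      ring

end Pool.Agent.MP72S.LvU
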