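import Pool.Agent.Lib.MP_72e2e6_nt.Sm.G.SpecD

/-!
# MP_72e2e6_nt, `Sm`, block NG (level one, uniform in the fixed places)

For the natural density the small primes of the twist are put into the set `D.S` of the fixed places, so
the statements of block G (`Sm/G/Spec*.lean`) are needed with constants which do not depend on `D`. The conditions are
explicit: `t` is the number of the finite places in `D.S`, `m` the number of the variable primes (`m ≥ A (t + 1)`), all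
variable degrees are at least `h`, the sum of all degrees is at most `X` and `(X ^ 2 A ^ (t + m + 1)) ^ 2 ≤ q ^ h`.

Every module proves one of the propositions `S_X` below: file `Sm/NG/X.lean` (import this file only, and the proved files
`MP_72e2e6_nt/Pe*.lean`, if you want to use their lemmas) with `theorem tX : S_X` or
`theorem tX (h1 : S_Y) (h2 : S_Z) .. : S_X` (the used statements in the order of the docstring; statements of other blocks
with their namespace, e.g. `Lv.S_Few`), namespace `Pool.Agent.MP72S.LvU`, all other declarations `private`. Most proofs are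
modifications of the proofs of block G: copy them from `Sm/G/*.lean`.
-/

set_option autoImplicit false

namespace Pool.Agent.MP72S.LvU

open Finset Polynomial MP72e2e6 Pool.Agent.MP72S.Lv

/-- **Momu** (300 lines, uses `Lv.S_Few`, `Lv.S_Prb`, `MP72e2e6.StmtPpTS`). The average number of the solutions, uniform in
the number of the fixed places.

Proof. As `Lv.S_Mom` (`Sm/G/Mom.lean`, `Sm/G/MomAux.lean`), with a better count. By `Lv.S_Prb` the left side is at most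
`M (N ^ -(|T| + m) ∑_x #{(lam, δ) | S.Cmp x.1 x.2.2 lam δ} + ε N ^ (|T| + 1 + m))`. The sum over `x` is the number of the
`(c, c₀, s, lam, δ)` with `Cmp`; `c₀` is free (`N` choices). Let `U = W × Dual W`, `|U| = N ^ 2`, `u i = (s i, lam i)`, pairwise
related (`Cmp.un`; `R u u' = ((u.2 - u'.2) (u.1 - u'.1) = 0)`). Say that `u` is full if there is `𝓥 : Finset U` with
`#𝓥 = N`, `u i ∈ 𝓥` for all `i`, and every `w ∈ 𝓥` is some `u i`. (1) The `u` which are not full: at most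
`2 ^ (N ^ 2) * N * few N 0 m` (`Lv.S_Few`, second part, `L = 0`), and `N ^ (2 |T|)` pairs `(c, δ)`. (2) Full `u`: at most
`2 ^ (N ^ 2) * N ^ m` (first part of `Lv.S_Few`). Claim: for a full `u` and every `v` there are at most `N` pairs
`(c v, δ v) ∈ W × Dual W` with `lam i (S.σ v (c v - s i)) + δ v (s i - c v) = 0` for all `i`; so at most `N ^ |T|` families `(c, δ)`.
Proof of the claim. `m ≥ 1` as `N ≥ 1`; fix an index `i₀`. By `StmtPpTS` (as in the proof of `Lv.S_Str`, see `Sm/G/Str.lean`;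
copy its steps (a), (c), (d), (e)) there is a subspace `L'` of `W × Dual W` with `u ∈ 𝓥 ↔ u - u i₀ ∈ L'`; with
`A = L'.map fst`: (a) `s i - s i₀ ∈ A` for all `i`, and every element of `A` is `s i - s i₀` for some `i`; (c) if `e : Dual W` vanishes on `A`
then `(0, e) ∈ L'` (`StmtPpTS` says that `L'` is its own orthogonal complement), so for every `i` there is `i'` with
`s i' = s i`, `lam i' = lam i + e`; the difference of the conditions at `i` and `i'` is `e (S.σ v (c v - s i)) = 0`; so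
`S.σ v (c v - s i) ∈ A`; (d) `S.σ v a = S.σ v (c v - s i) - S.σ v (c v - s i') ∈ A` for `a = s i' - s i ∈ A`; (e) `S.σ v` is injective
(`Tm.inj`), so bijective on the finite set `A`, and `c v - s i₀ ∈ A`. Now `c v` has at most `|A|` values. Given `c v`, the
functional `δ v` is determined on `A`: `A = {s i - c v | i}` (a translate of `{s i - s i₀}` by an element of `A`) and
`δ v (s i - c v) = lam i (S.σ v (c v - s i))` (`-x = x`). The number of the functionals with a given restriction to `A` is at most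
`|A.dualAnnihilator| = |W| / |A|` (`Subspace.finrank_add_finrank_dualAnnihilator_eq` or similar,
`Module.card_eq_pow_finrank`). So there are at most `|A| * (|W| / |A|) = N` pairs. (3) Together: the number of the
quintuples is at most `N * (2 ^ (N ^ 2) * N ^ m * N ^ |T| + N ^ (2 |T|) * 2 ^ (N ^ 2) * N * few N 0 m)`; divide by `N ^ (|T| + m)`. -/
def S_Momu : Prop :=
  ∀ (T W X : Type) [Fintype T] [AddCommGroup W] [Module (ZMod 2) W] [Finite W] (m : ℕ)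
    (S : Opr T W) (n : Fin m → ZMod 2), S.Tm n → ∀ (Z : Finset X) (A : X → T → Fin m → ZMod 2)
    (B : X → Fin m → Fin m → ZMod 2) (M ε : ℝ), 0 ≤ M → 0 ≤ ε → Eqd Z A B M ε →
    ∀ N : ℕ, N = Nat.card W →
    (∑ z ∈ Z, (Nat.card {x : Unk T W m // S.Sol n (A z) (B z) x} : ℝ)) ≤
      M * ((N : ℝ) * 2 ^ (N ^ 2) +
        (N : ℝ) ^ (Fintype.card T + 2) * 2 ^ (N ^ 2) * (few N 0 m / (N : ℝ) ^ m) +
        ε * (N : ℝ) ^ (Fintype.card T + 1 + m))

/-- **Binu** (120 lines). The binomial tail with an exponential factor.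

Proof. `N = 1`: for `m > L` all terms of `few 1 L m` are `0` (`0 ^ (m - j)`, `j ≤ L < m`). `N ≥ 2`: as in `Sm/G/Bin.lean`,
`few N L m ≤ (L + 1) N ^ L m ^ L (N - 1) ^ (m - L)` for `m ≥ L`, `m ≥ 1`. Let `ρ = (N - 1) / N < 1` and let `C ≥ 1` be such that
`N ^ 2 * ρ ^ C ≤ 1` (powers of `ρ` tend to `0`). If `C t ≤ m` then `N ^ (2 t) ≤ ρ ^ (-(C t)) ≤ ρ ^ (-m)`, so
`(N ^ t) ^ 2 * ρ ^ m ≤ 1`, i.e. `N ^ t ≤ (1 / √ρ) ^ m`. So `N ^ t * few N L m / N ^ m ≤ C' m ^ L (√ρ) ^ m` with a constant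
`C'`, which tends to `0` (`tendsto_pow_const_mul_const_pow_of_abs_lt_one`). -/
def S_Binu : Prop :=
  ∀ N L : ℕ, 1 ≤ N → ∃ C : ℕ, ∀ ε : ℝ, 0 < ε → ∃ m₀ : ℕ, ∀ m, m₀ ≤ m → ∀ t : ℕ, C * t ≤ m →
    (N : ℝ) ^ t * (few N L m : ℝ) ≤ ε * (N : ℝ) ^ m

/-- **ChsE** (250 lines, uses `StmtSuSy`, `StmtSuPsi`, `StmtPeChr`, `StmtPeExt`, `StmtPeSyl`, `Lv.S_Nir`). Explicit character sums over
the primes of degree `n`.

Proof. Copy `Sm/G/Chs.lean`: with `m = ∑ b, deg (pr b) ≤ X`, `A = |∑ P ∈ irr F n, fch pr P|` it shows (if `1 ≤ m`,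
`20 m < q ^ n`, `16 ≤ q ^ n`) `n A ≤ 15 m √(q ^ n) + 2 q ^ (n / 2) ≤ (15 X + 2) √(q ^ n)`. Multiply by `√(q ^ n)` and use
`q ^ n ≤ 2 n #(irr F n)` (`Lv.S_Nir` (1)). -/
def S_ChsE : Prop :=
  ∀ (F : Type) [Field F] [Finite F], 4 ∣ Nat.card F - 1 → ∀ n X : ℕ, 4 ≤ n →
    20 * X < Nat.card F ^ n → ∀ (ι : Type) [Fintype ι] [Nonempty ι] (pr : ι → F[X]), Fam pr →
    ∑ b, (pr b).natDegree ≤ X →
    |∑ P ∈ irr F n, fch pr P| * Real.sqrt ((Nat.card F : ℝ) ^ n) ≤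
      (30 * X + 4) * (#(irr F n) : ℝ)

/-- **TupE** (300 lines, uses `StmtPeSyl`, `Lv.S_Nir`, `S_ChsE`). Explicit character sums over tuples.

Proof. As `Lv.S_Tup` (copy `Sm/G/Tup.lean`), but `i₀` may be any index which occurs (no maximality is needed), since the
bound `X` for the degrees does not depend on it. `1 ≤ m`, and `X ≥ n i₀ ≥ 4`, `X ≥ m`. For fixed different `z j`, `j ≠ i₀`,
`S_ChsE` for the family `pr'` (sum of the degrees at most `X`, `20 X < q ^ h ≤ q ^ (n i₀)`) gives the bound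
`(30 X + 4) #(irr F (n i₀)) / √(q ^ (n i₀)) ≤ (30 X + 4) #(irr F (n i₀)) / √(q ^ h)` for the sum over all
`z i₀ ∈ irr F (n i₀)`. The sum over the `z i₀` different from all `z j` differs from it by at most `m ≤ X` terms of absolute value
at most `1`, and `X ≤ X * (2 (n i₀) #(irr F (n i₀)) / q ^ (n i₀)) ≤ 2 X ^ 2 #(irr F (n i₀)) / √(q ^ h)`. As
`30 X + 4 + 2 X ^ 2 ≤ 36 X ^ 2` the claim follows by summing over the `z j`, `j ≠ i₀`. -/
def S_TupE : Prop :=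
  ∀ (F : Type) [Field F] [Finite F], 4 ∣ Nat.card F - 1 → ∀ (T : Type) [Fintype T]
    (pr : T → F[X]), Fam pr → ∀ (m : ℕ) (n : Fin m → ℕ) (h X : ℕ), 4 ≤ h → (∀ i, h ≤ n i) →
    (∀ v, (pr v).natDegree < h) → ∑ v, (pr v).natDegree + ∑ i, n i ≤ X →
    20 * X < Nat.card F ^ h → ∀ Z : Finset (Fin m → F[X]),
    (∀ z, z ∈ Z ↔ (∀ i, z i ∈ irr F (n i)) ∧ Function.Injective z) →
    ∀ (α : T → Fin m → ZMod 2) (β : Fin m → Fin m → ZMod 2),
    ((∃ v i, α v i ≠ 0) ∨ ∃ i j, i < j ∧ β i j ≠ 0) →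
    |∑ z ∈ Z, sgn (bch α β (fun v i => syl cs (z i) (pr v)) fun i j => syl cs (z j) (z i))| *
      Real.sqrt ((Nat.card F : ℝ) ^ h) ≤ 36 * (X : ℝ) ^ 2 * ∏ i, (#(irr F (n i)) : ℝ)

/-- **EqzE** (150 lines, uses `S_Sym`, `S_TupE`). The symbols of the tuples are equidistributed, explicit.

Proof. As `Lv.S_Eqz` (copy `Sm/G/Eqz.lean`), with `S_TupE` for `T = TT D`, `pr v = pi v.1`. For `n i ≥ h` the map `pi` is a bijection
from `Irr (n i)` to `irr F (n i)` because the degrees of the `pi v`, `v ∈ D.S`, are less than `h`. -/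
def S_EqzE : Prop :=
  ∀ {G N P F : Type} [Group G] [TopologicalSpace G] [AddCommGroup N] [DistribMulAction G N]
    [Field F] [Finite F] (D : Dat G N P) (pi : P → F[X]) (Irr : ℕ → Finset P), Ax D →
    Arith D pi Irr → 4 ∣ Nat.card F - 1 → ∀ (m : ℕ) (n : Fin m → ℕ) (h X : ℕ), 4 ≤ h →
    (∀ i, h ≤ n i) → (∀ v ∈ D.S, (pi v).natDegree < h) →
    ∑ v : TT D, (pi v.1).natDegree + ∑ i, n i ≤ X → 20 * X < Nat.card F ^ h →
    ∀ ε : ℝ, 36 * (X : ℝ) ^ 2 ≤ ε * Real.sqrt ((Nat.card F : ℝ) ^ h) →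
      Eqd (tupF Irr n) (Az D) (Bz D) (∏ i, (#(Irr (n i)) : ℝ)) ε

/-- The size conditions (with the parameter `A`): `m` variable primes of degrees `n i ≥ h`, the finite fixed places have
degrees less than `h`, their number is small, the total degree is at most `X`. -/
structure FrU {G N P F : Type} [Field F] (D : Dat G N P) (pi : P → F[X]) (A m : ℕ)
    (n : Fin m → ℕ) (h X : ℕ) : Prop where
  four : 4 ≤ h
  ge : ∀ i, h ≤ n i
  sm : ∀ v ∈ D.S, (pi v).natDegree < h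
  tot : ∑ v : TT D, (pi v.1).natDegree + ∑ i, n i ≤ X
  rat : A * (Fintype.card (TT D) + 1) ≤ m
  big : (X ^ 2 * A ^ (Fintype.card (TT D) + m + 1)) ^ 2 ≤ Nat.card F ^ h

/-- **Epsu** (60 lines). The size of the error term.

Proof. `m ≥ A ≥ 1` and `X ≥ n i ≥ 4`. `X ^ 4 A ^ 2 ≤ q ^ h` (`A ^ (2 (t + m + 1)) ≥ A ^ 2`) and `20 X < X ^ 4 A ^ 2`. The last claim with
`ε' = 36 / A ^ (t + m + 1)`: `√(q ^ h) ≥ X ^ 2 A ^ (t + m + 1)`, and `ε' N ^ (t + 1 + m) = 36 (N / A) ^ (t + m + 1) ≤ 36 N / A ≤ ε`. -/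
def S_Epsu : Prop :=
  ∀ {G N P F : Type} [Field F] [Finite F] (D : Dat G N P) (pi : P → F[X]) (A m : ℕ)
    (n : Fin m → ℕ) (h X : ℕ), FrU D pi A m n h X → 1 ≤ A →
    20 * X < Nat.card F ^ h ∧ ∀ (N' : ℕ) (ε : ℝ), 1 ≤ N' → N' ≤ A → 36 * (N' : ℝ) ≤ ε * A →
      ∃ ε' : ℝ, 0 ≤ ε' ∧ 36 * (X : ℝ) ^ 2 ≤ ε' * Real.sqrt ((Nat.card F : ℝ) ^ h) ∧
        ε' * (N' : ℝ) ^ (Fintype.card (TT D) + 1 + m) ≤ ε

/-- **Lg1U** (120 lines, uses `Lv.S_Mop`, `Lv.S_Exp`, `Lv.S_Lnk`, `Lv.S_Tmz`, `S_Momu`, `S_Binu`, `S_EqzE`, `S_Epsu`). The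
average order of `Dk z 1`.

Proof. As `Lv.S_Lg1` with `S_Momu` for `W = VN N`, `N' = 4` (`S.Tm (nz D z)` by `Lv.S_Tmz`; `nz D z` is the same for all `z`; if `tup` is
empty nothing is to be shown). Let `C₀`, `m₀` be from `S_Binu` for `N = 4`, `L = 0`, `ε = 1`; `A = max (2 C₀) (m₀ + 144)`: then
`C₀ (t + 2) ≤ 2 C₀ (t + 1) ≤ m`, `m ≥ A ≥ m₀`, so `4 ^ (t + 2) few 4 0 m / 4 ^ m ≤ 1`, and by `S_Epsu` (`ε = 1`) the last term is at most `1`:
`C = 4 * 2 ^ 16 + 2 ^ 16 + 1`. -/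
def S_Lg1U : Prop :=
  ∃ C A : ℕ, ∀ {G N P F : Type} [Group G] [TopologicalSpace G] [AddCommGroup N]
    [DistribMulAction G N] [Field F] [Finite F] (D : Dat G N P) (pi : P → F[X])
    (Irr : ℕ → Finset P), Ax D → Arith D pi Irr → 4 ∣ Nat.card F - 1 → ∀ (m : ℕ)
    (n : Fin m → ℕ) (h X : ℕ), FrU D pi A m n h X →
    (∀ z ∈ tup fun i => Irr (n i), D.Ok z ∧ Tms D z) →
    (∑ᶠ z ∈ tup fun i => Irr (n i), (Nat.card (D.Dk z 1) : ℝ)) ≤ C * ∏ i, (#(Irr (n i)) : ℝ)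

/-- **Lg2aU** (150 lines, uses `Lv.S_Mop`, `Lv.S_Exp`, `Lv.S_Lnk`, `Lv.S_Tmz`, `Lv.S_Pwc`, `S_Momu`, `S_Binu`, `S_EqzE`,
`S_Epsu`). Large groups `Dk z 1` are rare.

Proof. As `Lv.S_Lg2a` (copy `Sm/G/Lg2a.lean`) with `S_Momu` for `S.pow 2`, `W = Fin 2 → VN N`, `N' = 16` (`(S.pow 2).Tm` holds
componentwise): the sum of the `#(Dk z 1) ^ 2` is at most `C₂ ∏`, `C₂ = 16 * 2 ^ 256 + 2 ^ 256 + 1`, if `A ≥ max (2 C₀) (m₀ + 576)` with
`C₀`, `m₀` from `S_Binu` for `N = 16`, `L = 0`, `ε = 1`. `K ≥ C₂ / ε`. -/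
def S_Lg2aU : Prop :=
  ∀ ε : ℝ, 0 < ε → ∃ K A : ℕ, ∀ {G N P F : Type} [Group G] [TopologicalSpace G]
    [AddCommGroup N] [DistribMulAction G N] [Field F] [Finite F] (D : Dat G N P) (pi : P → F[X])
    (Irr : ℕ → Finset P), Ax D → Arith D pi Irr → 4 ∣ Nat.card F - 1 → ∀ (m : ℕ)
    (n : Fin m → ℕ) (h X : ℕ), FrU D pi A m n h X →
    (∀ z ∈ tup fun i => Irr (n i), D.Ok z ∧ Tms D z) →
    (∑ᶠ z ∈ {z ∈ tup fun i => Irr (n i) | K ≤ Nat.card (D.Dk z 1)},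
      (Nat.card (D.Dk z 1) : ℝ)) ≤ ε * ∏ i, (#(Irr (n i)) : ℝ)

/-- **Lg2bU** (200 lines, uses `Lv.S_Mop`, `Lv.S_Exp`, `Lv.S_Tmz`, `Lv.S_Dnz`, `Lv.S_Mbd`, `Lv.S_Pbd`, `S_Binu`, `S_EqzE`, `S_Epsu`).
Missing patterns are rare for a given order of `Dk z 1`.

Proof. As `Lv.S_Lg2b` (copy `Sm/G/Lg2b.lean`), `N' = 4 ^ k`. `Lv.S_Mbd` has the term
`N' ^ (t + 1) * 2 ^ (N' ^ 2) * N' * few N' L m / N' ^ m`: by `S_Binu` for `N'`, `L` and `ε / (2 * 2 ^ (N' ^ 2))` it is at most `ε / 2` if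
`C₀ (t + 2) ≤ m`, `m₀ ≤ m`; the second term is at most `ε / 2` by `S_Epsu` if `A ≥ 72 N' / ε`, `A ≥ N'`. `A` = the maximum of
`2 C₀`, `m₀`, `N'`, `1`, `⌈72 N' / ε⌉`. -/
def S_Lg2bU : Prop :=
  ∀ (k L : ℕ) (ε : ℝ), 0 < ε → ∃ A : ℕ, ∀ {G N P F : Type} [Group G] [TopologicalSpace G]
    [AddCommGroup N] [DistribMulAction G N] [Field F] [Finite F] (D : Dat G N P) (pi : P → F[X])
    (Irr : ℕ → Finset P), Ax D → Ird D → Arith D pi Irr → 4 ∣ Nat.card F - 1 → ∀ (m : ℕ)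
    (n : Fin m → ℕ) (h X : ℕ), FrU D pi A m n h X →
    (∀ z ∈ tup fun i => Irr (n i), D.Ok z ∧ Tms D z) → ∀ b : Fin m,
    ({z ∈ tup fun i => Irr (n i) | Nat.card (D.Dk z 1) = 4 * 2 ^ k ∧
      ¬ D.Pat (D.Dk z 1) b L}.ncard : ℝ) ≤ ε * ∏ i, (#(Irr (n i)) : ℝ)

/-- **Lg2U** (150 lines, uses `Lv.S_Exp`, `Lv.S_Pbd`, `S_Lg2aU`, `S_Lg2bU`). Missing patterns are rare.

Proof. As `Lv.S_Lg2` (copy `Sm/G/Lg2.lean`); `A` = the maximum of the finitely many constants (`FrU` for a larger `A` implies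
`FrU` for a smaller one). -/
def S_Lg2U : Prop :=
  ∀ (L : ℕ) (ε : ℝ), 0 < ε → ∃ A : ℕ, ∀ {G N P F : Type} [Group G] [TopologicalSpace G]
    [AddCommGroup N] [DistribMulAction G N] [Field F] [Finite F] (D : Dat G N P) (pi : P → F[X])
    (Irr : ℕ → Finset P), Ax D → Ird D → Arith D pi Irr → 4 ∣ Nat.card F - 1 → ∀ (m : ℕ)
    (n : Fin m → ℕ) (h X : ℕ), FrU D pi A m n h X →
    (∀ z ∈ tup fun i => Irr (n i), D.Ok z ∧ Tms D z) → ∀ b : Fin m,
    (∑ᶠ z ∈ {z ∈ tup fun i => Irr (n i) | ¬ D.Pat (D.Dk z 1) b L},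
      (Nat.card (D.Dk z 1) : ℝ)) ≤ ε * ∏ i, (#(Irr (n i)) : ℝ)

end Pool.Agent.MP72S.LvU
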