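import Pool.Agent.Lib.MP_72e2e6_nt.Sm.NG.Spec

set_option autoImplicit false

namespace Pool.Agent.MP72S.LvU

open Finset Filter Topology Pool.Agent.MP72S.Lv

private theorem bin_term (N L m j : ℕ) (hN : 1 ≤ N) (hj : j ∈ range (L + 1)) (hm : L + 1 ≤ m) :
    m.choose j * (N - 1) ^ (m - j) ≤ m ^ j * (N - 1) ^ m := by
  rw [mem_range] at hj
  apply Nat.mul_le_mul (Nat.choose_le_pow m j)
  rcases Nat.eq_or_lt_of_le hN with h | h
  · rw [← h, Nat.sub_self, zero_pow (by omega)]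
    exact Nat.zero_le _
  · exact Nat.pow_le_pow_right (by omega) (Nat.sub_le _ _)

private theorem key_bd (N ρ : ℝ) (C t m : ℕ) (hN : 0 ≤ N) (h0 : 0 ≤ ρ) (h1 : ρ ≤ 1)
    (hC : N ^ 2 * ρ ^ C ≤ 1) (hm : C * t ≤ m) : N ^ t * ρ ^ m ≤ Real.sqrt ρ ^ m := by
  have e1 : (N ^ t) ^ 2 * ρ ^ m ≤ 1 := by
    calc (N ^ t) ^ 2 * ρ ^ m ≤ (N ^ t) ^ 2 * ρ ^ (C * t) :=
          mul_le_mul_of_nonneg_left (pow_le_pow_of_le_one h0 h1 hm) (by positivity)
      _ = (N ^ 2 * ρ ^ C) ^ t := by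
          rw [mul_pow, ← pow_mul, ← pow_mul, ← pow_mul, mul_comm t 2]
      _ ≤ 1 := pow_le_one₀ (by positivity) hC
  have e2 : (N ^ t * ρ ^ m) ^ 2 ≤ (Real.sqrt ρ ^ m) ^ 2 := by
    calc (N ^ t * ρ ^ m) ^ 2 = ((N ^ t) ^ 2 * ρ ^ m) * ρ ^ m := by ring
      _ ≤ 1 * ρ ^ m := mul_le_mul_of_nonneg_right e1 (by positivity)
      _ = (Real.sqrt ρ ^ m) ^ 2 := by
          rw [one_mul, ← pow_mul, mul_comm m 2, pow_mul, Real.sq_sqrt h0]
  exact (sq_le_sq₀ (by positivity) (by positivity)).1 e2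

theorem tBinu : S_Binu := by
  intro N L hN
  have hN0 : (0 : ℝ) < N := by
    have : 0 < N := hN
    exact_mod_cast this
  set ρ : ℝ := ((N - 1 : ℕ) : ℝ) / N with hρ
  have hρ0 : 0 ≤ ρ := by positivity
  have hρ1 : ρ < 1 := by
    rw [hρ, div_lt_one hN0]
    have : N - 1 < N := by omega
    exact_mod_cast this
  have hlim : Tendsto (fun C : ℕ => (N : ℝ) ^ 2 * ρ ^ C) atTop (𝓝 ((N : ℝ) ^ 2 * 0)) :=
    (tendsto_pow_atTop_nhds_zero_of_lt_one hρ0 hρ1).const_mul _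
  rw [mul_zero] at hlim
  obtain ⟨C, hC⟩ := eventually_atTop.1 (hlim.eventually (ge_mem_nhds zero_lt_one))
  have hC' := hC C le_rfl
  refine ⟨C, fun ε hε => ?_⟩
  have hr : |Real.sqrt ρ| < 1 := by
    rw [abs_of_nonneg (Real.sqrt_nonneg _)]
    rw [Real.sqrt_lt' one_pos, one_pow]
    exact hρ1
  have h1 : Tendsto (fun m : ℕ => ∑ j ∈ range (L + 1),
      (m : ℝ) ^ j * Real.sqrt ρ ^ m) atTop (𝓝 0) := by
    have h2 := tendsto_finsetSum (range (L + 1)) fun j _ =>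
      tendsto_pow_const_mul_const_pow_of_abs_lt_one j hr
    simpa using h2
  obtain ⟨m₁, hm₁⟩ := eventually_atTop.1 (h1.eventually (ge_mem_nhds hε))
  refine ⟨max m₁ (L + 1), fun m hm t ht => ?_⟩
  have h3 := hm₁ m (le_trans (le_max_left _ _) hm)
  have h4 : L + 1 ≤ m := le_trans (le_max_right _ _) hm
  have h5 : few N L m ≤ ∑ j ∈ range (L + 1), m ^ j * (N - 1) ^ m :=
    sum_le_sum fun j hj => bin_term N L m j hN hj h4
  have h6 := key_bd N ρ C t m hN0.le hρ0 hρ1.le hC' ht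
  calc (N : ℝ) ^ t * (few N L m : ℝ) ≤
        (N : ℝ) ^ t * ((∑ j ∈ range (L + 1), m ^ j * (N - 1) ^ m : ℕ) : ℝ) := by
        apply mul_le_mul_of_nonneg_left _ (by positivity)
        exact_mod_cast h5
    _ = (∑ j ∈ range (L + 1), (m : ℝ) ^ j * ((N : ℝ) ^ t * ρ ^ m)) * (N : ℝ) ^ m := by
        rw [sum_mul, Nat.cast_sum, mul_sum]
        apply sum_congr rfl
        intro j _
        rw [hρ, div_pow]
        push_cast
        field_simp
    _ ≤ (∑ j ∈ range (L + 1), (m : ℝ) ^ j * Real.sqrt ρ ^ m) * (N : ℝ) ^ m := by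
        apply mul_le_mul_of_nonneg_right _ (by positivity)
        exact sum_le_sum fun j _ => mul_le_mul_of_nonneg_left h6 (by positivity)
    _ ≤ ε * (N : ℝ) ^ m := mul_le_mul_of_nonneg_right h3 (by positivity)

end Pool.Agent.MP72S.LvU
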