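import Pool.Agent.Lib.MP_72e2e6_nt.Sm.NG.Spec

/-! # MP_72e2e6_nt, `Sm/NG/TupE`: explicit character sums over tuples -/

set_option autoImplicit false

namespace Pool.Agent.MP72S.LvU

open Finset Polynomial MP72e2e6 Pool.Agent.MP72S.Lv

private theorem tup_sgn (a b : ZMod 2) : sgn (a + b) = sgn a * sgn b := by
  rcases zmod2 a with rfl | rfl <;> rcases zmod2 b with rfl | rfl
  · simp [sgn]
  · simp [sgn]
  · simp [sgn]
  · rw [show (1 : ZMod 2) + 1 = 0 from rfl]
    simp [sgn]

private theorem tup_abs (a : ZMod 2) : |sgn a| = 1 := by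
  rcases zmod2 a with rfl | rfl <;> simp [sgn]

section split

variable {T : Type} [Fintype T] {m : ℕ}

/-- the part of the exponent without the index `i₀` -/
private def Kt (i₀ : Fin m) (α : T → Fin m → ZMod 2) (β : Fin m → Fin m → ZMod 2)
    (A : T → Fin m → ZMod 2) (B : Fin m → Fin m → ZMod 2) : ZMod 2 :=
  ∑ v, ∑ i ∈ univ.erase i₀, α v i * A v i +
    ∑ i ∈ univ.erase i₀, ∑ j ∈ univ.erase i₀, if i < j then β i j * B i j else 0

/-- the coefficients which belong to `i₀` -/
private def gam (i₀ : Fin m) (β : Fin m → Fin m → ZMod 2) (j : Fin m) : ZMod 2 :=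
  if i₀ < j then β i₀ j else if j < i₀ then β j i₀ else 0

private theorem gam_self (i₀ : Fin m) (β : Fin m → Fin m → ZMod 2) : gam i₀ β i₀ = 0 := by
  rw [gam, if_neg (lt_irrefl _), if_neg (lt_irrefl _)]

private theorem bch_split (i₀ : Fin m) (α : T → Fin m → ZMod 2) (β : Fin m → Fin m → ZMod 2)
    (A : T → Fin m → ZMod 2) (B : Fin m → Fin m → ZMod 2)
    (hsym : ∀ j, j ≠ i₀ → B j i₀ = B i₀ j) :
    bch α β A B = Kt i₀ α β A B + (∑ v, α v i₀ * A v i₀ + ∑ j, gam i₀ β j * B i₀ j) := by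
  have h1 : ∑ v, ∑ i, α v i * A v i = ∑ v, α v i₀ * A v i₀ +
      ∑ v, ∑ i ∈ univ.erase i₀, α v i * A v i := by
    rw [← Finset.sum_add_distrib]
    exact Finset.sum_congr rfl fun v _ =>
      (Finset.add_sum_erase univ (fun i => α v i * A v i) (mem_univ i₀)).symm
  have h2 : ∀ i, ∑ j ∈ univ.filter (fun j => i < j), β i j * B i j =
      (if i < i₀ then β i i₀ * B i i₀ else 0) +
        ∑ j ∈ univ.erase i₀, if i < j then β i j * B i j else 0 := by
    intro i
    rw [Finset.sum_filter]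
    exact (Finset.add_sum_erase univ (fun j => if i < j then β i j * B i j else 0)
      (mem_univ i₀)).symm
  have h3 : ∑ i, ∑ j ∈ univ.filter (fun j => i < j), β i j * B i j =
      (∑ j ∈ univ.erase i₀, if i₀ < j then β i₀ j * B i₀ j else 0) +
      ((∑ i ∈ univ.erase i₀, if i < i₀ then β i i₀ * B i i₀ else 0) +
      ∑ i ∈ univ.erase i₀, ∑ j ∈ univ.erase i₀, if i < j then β i j * B i j else 0) := by
    rw [← Finset.add_sum_erase univ _ (mem_univ i₀), h2 i₀, if_neg (lt_irrefl _), zero_add,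
      Finset.sum_congr rfl fun i _ => h2 i, Finset.sum_add_distrib]
  have h4 : ∑ j, gam i₀ β j * B i₀ j =
      (∑ j ∈ univ.erase i₀, if i₀ < j then β i₀ j * B i₀ j else 0) +
      ∑ i ∈ univ.erase i₀, if i < i₀ then β i i₀ * B i i₀ else 0 := by
    rw [← Finset.add_sum_erase univ _ (mem_univ i₀), gam_self, zero_mul, zero_add,
      ← Finset.sum_add_distrib]
    refine Finset.sum_congr rfl fun j hj => ?_
    have hj' : j ≠ i₀ := Finset.ne_of_mem_erase hj
    rcases lt_or_gt_of_ne hj' with h | h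
    · rw [gam, if_neg (not_lt_of_gt h), if_pos h, if_neg (not_lt_of_gt h), if_pos h, zero_add,
        hsym j hj']
    · rw [gam, if_pos h, if_pos h, if_neg (not_lt_of_gt h), add_zero]
  rw [bch, Kt, h1, h3, h4]
  ring

private theorem sum_sub {κ : Type} [Fintype κ] (a : κ → ZMod 2) (f : κ → ZMod 2) :
    ∑ v, a v * f v = ∑ v : {v // a v ≠ 0}, f v.1 := by
  rw [← Finset.sum_subtype (univ.filter fun v => a v ≠ 0) (p := fun v => a v ≠ 0)
    (fun v => by simp) f, Finset.sum_filter]
  refine Finset.sum_congr rfl fun v _ => ?_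
  rcases zmod2 (a v) with h | h
  · rw [h, zero_mul, if_neg (not_not.2 rfl)]
  · rw [h, one_mul, if_pos one_ne_zero]

end split

section main

variable {F : Type} [Field F] [Finite F] {T : Type} [Fintype T] {pr : T → F[X]} {m : ℕ}
  {n : Fin m → ℕ} {α : T → Fin m → ZMod 2} {β : Fin m → Fin m → ZMod 2} {i₀ : Fin m}

private theorem mem_irr' {k : ℕ} {P : F[X]} :
    P ∈ irr F k ↔ (P.Monic ∧ P.natDegree = k) ∧ Irreducible P := by
  classical
  rw [irr, Finset.mem_filter, mem_mon]

/-- the family -/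
private def fam (pr : T → F[X]) (α : T → Fin m → ZMod 2) (β : Fin m → Fin m → ZMod 2)
    (i₀ : Fin m) (p : Fin m → F[X]) : {v // α v i₀ ≠ 0} ⊕ {j // gam i₀ β j ≠ 0} → F[X] :=
  Sum.elim (fun v => pr v.1) fun j => p j.1

private theorem ne_i₀ (j : {j // gam i₀ β j ≠ 0}) : j.1 ≠ i₀ := fun h =>
  j.2 (by rw [h]; exact gam_self _ _)

omit [Fintype T] in
private theorem pr_ne (hdeg : ∀ v j, (pr v).natDegree < n j) {v : T} {j : Fin m} {P : F[X]}
    (hP : P ∈ irr F (n j)) : pr v ≠ P := fun h => by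
  have h1 := hdeg v j
  rw [h, (mem_irr'.1 hP).1.2] at h1
  exact lt_irrefl _ h1

omit [Fintype T] in
private theorem fam_fam (hF : Fam pr) (hdeg : ∀ v j, (pr v).natDegree < n j)
    {p : Fin m → F[X]} (hp : ∀ j, j ≠ i₀ → p j ∈ irr F (n j))
    (hpi : ∀ i j, i ≠ i₀ → j ≠ i₀ → p i = p j → i = j) : Fam (fam pr α β i₀ p) where
  inj := by
    rintro (v | i) (w | j) h
    · exact congrArg Sum.inl (Subtype.ext (hF.inj h))
    · exact absurd h (pr_ne hdeg (hp j.1 (ne_i₀ j)))
    · exact absurd h.symm (pr_ne hdeg (hp i.1 (ne_i₀ i)))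
    · exact congrArg Sum.inr (Subtype.ext (hpi i.1 j.1 (ne_i₀ i) (ne_i₀ j) h))
  monic := by
    rintro (v | i)
    · exact hF.monic v.1
    · exact (mem_irr'.1 (hp i.1 (ne_i₀ i))).1.1
  irr := by
    rintro (v | i)
    · exact hF.irr v.1
    · exact (mem_irr'.1 (hp i.1 (ne_i₀ i))).2

private theorem fam_deg (p : Fin m → F[X]) (hp : ∀ j, j ≠ i₀ → p j ∈ irr F (n j)) :
    ∑ b, (fam pr α β i₀ p b).natDegree ≤ ∑ v, (pr v).natDegree + ∑ i, n i := by
  rw [Fintype.sum_sum_type]
  have h1 : ∑ v : {v // α v i₀ ≠ 0}, (fam pr α β i₀ p (Sum.inl v)).natDegree ≤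
      ∑ v, (pr v).natDegree := by
    change ∑ v : {v // α v i₀ ≠ 0}, (pr v.1).natDegree ≤ _
    rw [← Finset.sum_subtype (univ.filter fun v => α v i₀ ≠ 0) (p := fun v => α v i₀ ≠ 0)
      (fun v => by simp) (fun v => (pr v).natDegree)]
    exact Finset.sum_le_sum_of_subset (Finset.filter_subset _ _)
  have h2 : ∑ j : {j // gam i₀ β j ≠ 0}, (fam pr α β i₀ p (Sum.inr j)).natDegree ≤
      ∑ i, n i := by
    calc ∑ j : {j // gam i₀ β j ≠ 0}, (fam pr α β i₀ p (Sum.inr j)).natDegree
        = ∑ j : {j // gam i₀ β j ≠ 0}, n j.1 := by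
          refine Finset.sum_congr rfl fun j _ => ?_
          exact (mem_irr'.1 (hp j.1 (ne_i₀ j))).1.2
      _ ≤ ∑ i, n i := by
          rw [← Finset.sum_subtype (univ.filter fun j => gam i₀ β j ≠ 0)
            (p := fun j => gam i₀ β j ≠ 0) (fun v => by simp) (fun j => n j)]
          exact Finset.sum_le_sum_of_subset (Finset.filter_subset _ _)
  exact Nat.add_le_add h1 h2

/-- the summand -/
private noncomputable def Fx (pr : T → F[X]) (α : T → Fin m → ZMod 2)
    (β : Fin m → Fin m → ZMod 2) (z : Fin m → F[X]) : ℝ :=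
  sgn (bch α β (fun v i => syl cs (z i) (pr v)) fun i j => syl cs (z j) (z i))

private theorem term (hR : Rcp (cs : F → ZMod 2)) (hF : Fam pr)
    (hdeg : ∀ v j, (pr v).natDegree < n j) {p : Fin m → F[X]}
    (hp : ∀ j, j ≠ i₀ → p j ∈ irr F (n j)) {x : F[X]} (hx : x ∈ irr F (n i₀))
    (hxp : ∀ j, j ≠ i₀ → p j ≠ x) :
    Fx pr α β (Function.update p i₀ x) =
      sgn (Kt i₀ α β (fun v i => syl cs (p i) (pr v)) fun i j => syl cs (p j) (p i)) *
        fch (fam pr α β i₀ p) x := by
  have hx' := mem_irr'.1 hx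
  have hu : ∀ j, j ≠ i₀ → Function.update p i₀ x j = p j := fun j hj =>
    Function.update_of_ne hj _ _
  have hs : Function.update p i₀ x i₀ = x := Function.update_self _ _ _
  have hsym : ∀ j, j ≠ i₀ → syl cs x (p j) = syl cs (p j) x := fun j hj => by
    have h1 := mem_irr'.1 (hp j hj)
    exact hR _ _ hx'.1.1 hx'.2 h1.1.1 h1.2 (hxp j hj).symm
  rw [Fx, bch_split i₀, tup_sgn]
  · congr 1
    · congr 1
      unfold Kt
      congr 1
      · refine Finset.sum_congr rfl fun v _ => Finset.sum_congr rfl fun i hi => ?_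
        beta_reduce
        rw [hu i (Finset.ne_of_mem_erase hi)]
      · refine Finset.sum_congr rfl fun i hi => Finset.sum_congr rfl fun j hj => ?_
        beta_reduce
        rw [hu i (Finset.ne_of_mem_erase hi), hu j (Finset.ne_of_mem_erase hj)]
    · rw [fch, if_neg]
      · congr 1
        rw [Fintype.sum_sum_type, hs]
        congr 1
        · rw [sum_sub]
          refine Finset.sum_congr rfl fun v _ => ?_
          exact hR _ _ hx'.1.1 hx'.2 (hF.monic _) (hF.irr _) (pr_ne hdeg hx).symm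
        · rw [sum_sub]
          refine Finset.sum_congr rfl fun j _ => ?_
          rw [hu j.1 (ne_i₀ j)]
          rfl
      · rintro ⟨v | j, h⟩
        · exact pr_ne hdeg hx h
        · exact hxp j.1 (ne_i₀ j) h
  · intro j hj
    rw [hu j hj, hs]
    exact hsym j hj

open Classical in
private theorem inner (hR : Rcp (cs : F → ZMod 2)) (hF : Fam pr)
    (hdeg : ∀ v j, (pr v).natDegree < n j) {p : Fin m → F[X]}
    (hp : ∀ j, j ≠ i₀ → p j ∈ irr F (n j))
    (hocc : (∃ v, α v i₀ ≠ 0) ∨ ∃ j, gam i₀ β j ≠ 0) {E : ℝ}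
    (hC : ∀ (ι : Type) [Fintype ι] [Nonempty ι] (pr' : ι → F[X]), Fam pr' →
      ∑ b, (pr' b).natDegree ≤ ∑ v, (pr v).natDegree + ∑ i, n i →
      |∑ P ∈ irr F (n i₀), fch pr' P| ≤ E) (hE : 0 ≤ E) :
    |∑ x ∈ irr F (n i₀), if Function.Injective (Function.update p i₀ x) then
      Fx pr α β (Function.update p i₀ x) else 0| ≤ E + m := by
  have hu : ∀ x j, j ≠ i₀ → Function.update p i₀ x j = p j := fun x j hj =>
    Function.update_of_ne hj _ _
  have hs : ∀ x, Function.update p i₀ x i₀ = x := fun x => Function.update_self _ _ _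
  by_cases hpi : ∀ i j, i ≠ i₀ → j ≠ i₀ → p i = p j → i = j
  · have hinj : ∀ x, Function.Injective (Function.update p i₀ x) ↔ ∀ j, j ≠ i₀ → p j ≠ x := by
      intro x
      constructor
      · intro h j hj hx
        refine hj (h ?_)
        rw [hu x j hj, hs x, hx]
      · intro h i j hij
        by_cases hi : i = i₀
        · by_cases hj : j = i₀
          · rw [hi, hj]
          · rw [hi, hs, hu x j hj] at hij
            exact absurd hij.symm (h j hj)
        · by_cases hj : j = i₀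
          · rw [hj, hs, hu x i hi] at hij
            exact absurd hij (h i hi)
          · rw [hu x i hi, hu x j hj] at hij
            exact hpi i j hi hj hij
    set K := sgn (Kt i₀ α β (fun v i => syl cs (p i) (pr v)) fun i j => syl cs (p j) (p i))
      with hK
    have hKa : |K| = 1 := tup_abs _
    have hne : Nonempty ({v // α v i₀ ≠ 0} ⊕ {j // gam i₀ β j ≠ 0}) := by
      rcases hocc with ⟨v, hv⟩ | ⟨j, hj⟩
      · exact ⟨Sum.inl ⟨v, hv⟩⟩
      · exact ⟨Sum.inr ⟨j, hj⟩⟩
    have h1 := hC _ (fam pr α β i₀ p) (fam_fam hF hdeg hp hpi) (fam_deg p hp)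
    have hdiff : ∀ x ∈ irr F (n i₀), |(if Function.Injective (Function.update p i₀ x) then
        Fx pr α β (Function.update p i₀ x) else 0) - K * fch (fam pr α β i₀ p) x| ≤
        if x ∈ (univ.erase i₀).image p then 1 else 0 := by
      intro x hx
      by_cases hxe : x ∈ (univ.erase i₀).image p
      · rw [if_pos hxe, if_neg, zero_sub, abs_neg, abs_mul, hKa, one_mul]
        · unfold fch
          split_ifs
          · simp
          · rw [tup_abs]
        · rw [hinj]
          intro h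
          obtain ⟨j, hj, hjx⟩ := Finset.mem_image.1 hxe
          exact h j (Finset.ne_of_mem_erase hj) hjx
      · have hxp : ∀ j, j ≠ i₀ → p j ≠ x := fun j hj h =>
          hxe (Finset.mem_image.2 ⟨j, Finset.mem_erase.2 ⟨hj, mem_univ _⟩, h⟩)
        rw [if_neg hxe, if_pos ((hinj x).2 hxp), term hR hF hdeg hp hx hxp, ← hK, sub_self,
          abs_zero]
    have h2 : |∑ x ∈ irr F (n i₀), ((if Function.Injective (Function.update p i₀ x) then
        Fx pr α β (Function.update p i₀ x) else 0) - K * fch (fam pr α β i₀ p) x)| ≤ m := by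
      refine (Finset.abs_sum_le_sum_abs _ _).trans ((Finset.sum_le_sum hdiff).trans ?_)
      rw [← Finset.sum_filter, Finset.sum_const, nsmul_eq_mul, mul_one]
      have h3 : #((irr F (n i₀)).filter fun x => x ∈ (univ.erase i₀).image p) ≤ m := by
        refine (Finset.card_le_card (t := (univ.erase i₀).image p) fun x hx =>
          (Finset.mem_filter.1 hx).2).trans ?_
        refine Finset.card_image_le.trans ?_
        refine (Finset.card_le_univ _).trans ?_
        rw [Fintype.card_fin]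
      exact_mod_cast h3
    rw [Finset.sum_sub_distrib, ← Finset.mul_sum] at h2
    have h4 : |K * ∑ x ∈ irr F (n i₀), fch (fam pr α β i₀ p) x| ≤ E := by
      rw [abs_mul, hKa, one_mul]
      exact h1
    rw [abs_le] at h2 h4 ⊢
    constructor <;> linarith [h2.1, h2.2, h4.1, h4.2]
  · have h0 : ∀ x, ¬ Function.Injective (Function.update p i₀ x) := by
      intro x h
      apply hpi
      intro i j hi hj hij
      refine h ?_
      rw [hu x i hi, hu x j hj, hij]
    rw [Finset.sum_eq_zero fun x _ => if_neg (h0 x), abs_zero]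
    positivity

end main

theorem tTupE (h1 : StmtPeSyl.{0}) (h2 : S_Nir) (h3 : S_ChsE) : S_TupE := by
  intro F _ _ h4 T _ pr hF m n h X h4h hhn hdh hX h20 Z hZ α β hne
  classical
  have hR : Rcp (cs : F → ZMod 2) :=
    ((h1 F (dvd_trans (by norm_num) h4)).2.2 h4).2
  have hdeg : ∀ v j, (pr v).natDegree < n j := fun v j => (hdh v).trans_le (hhn j)
  -- an index which occurs
  obtain ⟨i₀, hi₀⟩ : ∃ i₀, (∃ v, α v i₀ ≠ 0) ∨ ∃ j, gam i₀ β j ≠ 0 := by
    rcases hne with ⟨v, i, hv⟩ | ⟨i, j, hij, hb⟩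
    · exact ⟨i, Or.inl ⟨v, hv⟩⟩
    · refine ⟨i, Or.inr ⟨j, ?_⟩⟩
      rw [gam, if_pos hij]
      exact hb
  -- sizes
  have hq : 1 < Nat.card F := Finite.one_lt_card
  have hqR : (1 : ℝ) ≤ (Nat.card F : ℝ) := by exact_mod_cast hq.le
  have hmX : m ≤ X := by
    have h5 : ∑ _i : Fin m, 1 ≤ ∑ i, n i :=
      Finset.sum_le_sum fun i _ => by have := hhn i; omega
    rw [Finset.sum_const, smul_eq_mul, mul_one, Finset.card_univ, Fintype.card_fin] at h5
    omega
  have hnX : n i₀ ≤ X := by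
    have h5 : n i₀ ≤ ∑ i, n i := Finset.single_le_sum (f := n) (fun i _ => Nat.zero_le _) (mem_univ i₀)
    omega
  have hX4 : 4 ≤ X := h4h.trans ((hhn i₀).trans hnX)
  set I : ℝ := (#(irr F (n i₀)) : ℝ) with hI
  set s : ℝ := Real.sqrt ((Nat.card F : ℝ) ^ h) with hs
  have hI0 : 0 ≤ I := by positivity
  have hs1 : 1 ≤ s := by
    rw [hs, Real.one_le_sqrt]
    exact one_le_pow₀ hqR
  have hsn : s ≤ Real.sqrt ((Nat.card F : ℝ) ^ n i₀) :=
    Real.sqrt_le_sqrt (pow_le_pow_right₀ hqR (hhn i₀))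
  have hsq : s ≤ (Nat.card F : ℝ) ^ n i₀ := by
    have h5 : Real.sqrt ((Nat.card F : ℝ) ^ n i₀) ≤ (Nat.card F : ℝ) ^ n i₀ := by
      rw [Real.sqrt_le_left (by positivity)]
      nlinarith [one_le_pow₀ hqR (n := n i₀)]
    exact hsn.trans h5
  have hXR : (4 : ℝ) ≤ X := by exact_mod_cast hX4
  have hC : ∀ (ι : Type) [Fintype ι] [Nonempty ι] (pr' : ι → F[X]), Fam pr' →
      ∑ b, (pr' b).natDegree ≤ ∑ v, (pr v).natDegree + ∑ i, n i →
      |∑ P ∈ irr F (n i₀), fch pr' P| ≤ (30 * X + 4) * I / s := by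
    intro ι _ _ pr' hf hd
    have h5 := h3 F h4 (n i₀) X (h4h.trans (hhn i₀))
      (h20.trans_le (Nat.pow_le_pow_right (by omega) (hhn i₀))) ι pr' hf (hd.trans hX)
    rw [le_div_iff₀ (by linarith)]
    exact (mul_le_mul_of_nonneg_left hsn (abs_nonneg _)).trans h5
  have hm : (m : ℝ) ≤ 2 * X ^ 2 * I / s := by
    rw [le_div_iff₀ (by linarith)]
    have h5 := (h2 F).1 (n i₀) (h4h.trans (hhn i₀))
    have h6 : (m : ℝ) ≤ X := by exact_mod_cast hmX
    have h7 : (n i₀ : ℝ) ≤ X := by exact_mod_cast hnX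
    have h8 : s ≤ 2 * X * I := by
      refine hsq.trans (h5.trans ?_)
      exact mul_le_mul_of_nonneg_right (mul_le_mul_of_nonneg_left h7 (by norm_num)) hI0
    calc (m : ℝ) * s ≤ X * (2 * X * I) :=
          mul_le_mul h6 h8 (by linarith) (by linarith)
      _ = 2 * X ^ 2 * I := by ring
  have hin : ∀ p : Fin m → F[X], (∀ j, j ≠ i₀ → p j ∈ irr F (n j)) →
      |∑ x ∈ irr F (n i₀), if Function.Injective (Function.update p i₀ x) then
      Fx pr α β (Function.update p i₀ x) else 0| ≤ 36 * X ^ 2 * I / s := fun p hp => by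
    refine (inner hR hF hdeg hp hi₀ hC (by positivity)).trans ?_
    refine (add_le_add_right hm _).trans ?_
    rw [← add_div, div_le_div_iff_of_pos_right (by linarith)]
    nlinarith [mul_nonneg hI0 (by nlinarith : (0 : ℝ) ≤ 34 * X ^ 2 - 30 * X - 4)]
  -- the sum
  have hZ' : Z = (Fintype.piFinset fun i => irr F (n i)).filter Function.Injective := by
    ext z
    rw [hZ, Finset.mem_filter, Fintype.mem_piFinset]
  have h5 : ∑ z ∈ Z, sgn (bch α β (fun v i => syl cs (z i) (pr v)) fun i j =>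
      syl cs (z j) (z i)) = ∑ p ∈ Fintype.piFinset (Function.update (fun i => irr F (n i)) i₀ {0}),
        ∑ x ∈ irr F (n i₀), if Function.Injective (Function.update p i₀ x) then
          Fx pr α β (Function.update p i₀ x) else 0 := by
    rw [hZ', Finset.sum_filter]
    exact sum_pi_split (fun i => irr F (n i)) i₀ 0
      (fun z => if Function.Injective z then Fx pr α β z else 0)
  rw [h5, ← le_div_iff₀ (by linarith)]
  refine (Finset.abs_sum_le_sum_abs _ _).trans ?_
  have h6 : ∀ p ∈ Fintype.piFinset (Function.update (fun i => irr F (n i)) i₀ {0}),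
      |∑ x ∈ irr F (n i₀), if Function.Injective (Function.update p i₀ x) then
      Fx pr α β (Function.update p i₀ x) else 0| ≤ 36 * X ^ 2 * I / s := by
    intro p hp
    refine hin p fun j hj => ?_
    have h7 := Fintype.mem_piFinset.1 hp j
    rwa [Function.update_of_ne hj] at h7
  refine (Finset.sum_le_sum h6).trans ?_
  rw [Finset.sum_const, nsmul_eq_mul, Fintype.card_piFinset, Nat.cast_prod,
    ← Finset.mul_prod_erase univ _ (mem_univ i₀), Function.update_self, Finset.card_singleton,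
    Nat.cast_one, one_mul, ← Finset.mul_prod_erase univ (fun i => (#(irr F (n i)) : ℝ))
    (mem_univ i₀)]
  rw [Finset.prod_congr rfl fun i hi => by
    rw [Function.update_of_ne (Finset.ne_of_mem_erase hi)]]
  apply le_of_eq
  rw [← hI]
  ring

end Pool.Agent.MP72S.LvU
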